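import Mathlib
import Pool.Agent.H56.Inv.Final

/-!
The `(des, maj)` distribution on involutions: an explicit nonnegative formula for the coefficients
of `q^m`, `m ≤ n/2`, in `q^{(k+1 choose 2)} γ_{n,k}(q)`, for all `n` and `k`.
-/

set_option autoImplicit false

namespace Pool.Agent.Results.MP_1e629d_co.LowCoeffs

open Polynomial Finset Pool.H56.InvQ

/-- For every `n ≥ 1` the expansion exists over `ℤ[q]`, its coefficients `γ_k`, `k ≤ (n-1)/2`, are
unique, and for `m ≤ n/2` the coefficient of `q^m` in `q^{(k+1 choose 2)} γ_k` is the coefficient of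
`q^m` in `(1+q)⋯(1+q^k)` times the ascent polynomial of the fixed point free involutions with `k`
ascents of a set of size `2⌊n/2⌋`; it is nonnegative. -/
theorem result : ∀ n : ℕ, 1 ≤ n → ∃ γ : ℕ → Polynomial ℤ,
    invPoly n = expansion n γ ∧
    (∀ γ' : ℕ → Polynomial ℤ, invPoly n = expansion n γ' → ∀ k, k ≤ (n - 1) / 2 → γ' k = γ k) ∧
    (∀ k, k ≤ (n - 1) / 2 → ∀ m, m ≤ n / 2 →
      (X ^ ((k + 1).choose 2) * γ k).coeff m
        = ((∏ i ∈ range k, (1 + X ^ (i + 1))) * fpfAsc (n / 2) k).coeff m ∧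
      0 ≤ (X ^ ((k + 1).choose 2) * γ k).coeff m) := by
  intro n hn
  obtain ⟨γ, h1, h2, h3⟩ := joint n hn
  refine ⟨γ, h1, h2, fun k hk m hm => ⟨(h3 k hk).2.2.1 m hm, ?_⟩⟩
  rw [Polynomial.coeff_X_pow_mul']
  split_ifs with h
  · apply (h3 k hk).2.2.2.1
    omega
  · exact le_rfl

end Pool.Agent.Results.MP_1e629d_co.LowCoeffs
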