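import Mathlib
import Pool.Agent.H56.Inv.Final
import Pool.Agent.H53.RQ.Final

/-!
The `(des, maj)` distribution on involutions: `γ_{n,k}(q) ≥ 0` for all real `q ≥ 0`, all `n`, `k`.
-/

set_option autoImplicit false

namespace Pool.Agent.Results.MP_1e629d_co.RealPositivity

open Pool.H56.InvQ

/-- For every `n ≥ 1` the expansion exists over `ℤ[q]`, its coefficients `γ_k`, `k ≤ (n-1)/2`, are
unique, and `γ_k(q) ≥ 0` for every real `q ≥ 0`. -/
theorem result : ∀ n : ℕ, 1 ≤ n → ∃ γ : ℕ → Polynomial ℤ,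
    invPoly n = expansion n γ ∧
    (∀ γ' : ℕ → Polynomial ℤ, invPoly n = expansion n γ' → ∀ k, k ≤ (n - 1) / 2 → γ' k = γ k) ∧
    (∀ k, k ≤ (n - 1) / 2 → ∀ q : ℝ, 0 ≤ q → 0 ≤ Polynomial.aeval q (γ k)) := by
  intro n hn
  obtain ⟨γ, h1, h2, h3⟩ := joint n hn
  exact ⟨γ, h1, h2, fun k hk => Pool.H53.RQ.real_nonneg hn hk h1⟩

end Pool.Agent.Results.MP_1e629d_co.RealPositivity
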