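import Mathlib
import Pool.Agent.H56.Inv.Final
import Pool.Agent.H45.K5.Fin5

/-!
The `(des, maj)` distribution on involutions: `γ_{n,k}` has nonnegative coefficients for every `n`
if `k ≤ 5`, and for every `k` if `n ≥ 32 (k+1)^8`.
-/

set_option autoImplicit false

namespace Pool.Agent.Results.MP_1e629d_co.SmallK

open Pool.H56.InvQ

/-- For every `n ≥ 1` the expansion exists over `ℤ[q]`, its coefficients `γ_k`, `k ≤ (n-1)/2`, are
unique, and `γ_k` has nonnegative coefficients if `k ≤ 5` or `n ≥ 32 (k+1)^8`. -/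
theorem result : ∀ n : ℕ, 1 ≤ n → ∃ γ : ℕ → Polynomial ℤ,
    invPoly n = expansion n γ ∧
    (∀ γ' : ℕ → Polynomial ℤ, invPoly n = expansion n γ' → ∀ k, k ≤ (n - 1) / 2 → γ' k = γ k) ∧
    (∀ k, k ≤ (n - 1) / 2 → (k ≤ 5 ∨ 32 * (k + 1) ^ 8 ≤ n) → ∀ m, 0 ≤ (γ k).coeff m) := by
  intro n hn
  obtain ⟨γ, h1, h2, h3⟩ := joint n hn
  refine ⟨γ, h1, h2, fun k hk hbig m => ?_⟩
  rcases hbig with hk5 | hbig
  · have hev := Pool.H56.Inv.ev_of_expansion ((expansion_iff n γ).1 h1)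
    have h4 := Pool.Agent.H45.K5.nn_five hev hn hk hk5 (m + (k + 1).choose 2)
    rwa [Polynomial.coeff_X_pow_mul] at h4
  · exact (h3 k hk).2.2.2.2 (Or.inr hbig) m

end Pool.Agent.Results.MP_1e629d_co.SmallK
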